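import Pool.Agent.Helper654.PtakI

set_option autoImplicit false

open Complex Metric Set Polynomial

namespace Pool.Agent.Results.MP_a1a577_an.WorstSingleRoot

/-- The `n`-dimensional complex Hilbert space `H_n`. -/
abbrev H (n : ℕ) : Type := EuclideanSpace ℂ (Fin n)

/-- `A(p)`: the contractions `T` on `H_n` with `p(T) = 0`. -/
def A (n : ℕ) (p : ℂ[X]) : Set (H n →L[ℂ] H n) := {T | ‖T‖ ≤ 1 ∧ aeval T p = 0}

/-- The `k`-th Taylor coefficient of `f` at `0`. -/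
noncomputable def taylorCoeff (f : ℂ → ℂ) (k : ℕ) : ℂ := iteratedDeriv k f 0 / (k.factorial : ℂ)

/-- Functional calculus for `f` holomorphic on the unit disc: the norm convergent Taylor series
`f(T) = ∑ (f^(k)(0)/k!) T^k` (convergence is part of the result below). -/
noncomputable def funCalc {n : ℕ} (f : ℂ → ℂ) (T : H n →L[ℂ] H n) : H n →L[ℂ] H n :=
  ∑' k : ℕ, taylorCoeff f k • T ^ k

/-- The set of the numbers `‖f(T)‖`, `T ∈ A(p)`. -/
def normSet (n : ℕ) (p : ℂ[X]) (f : ℂ → ℂ) : Set ℝ := {x | ∃ T ∈ A n p, x = ‖funCalc f T‖}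

/-- `C(p, f)`, the largest value of `‖f(T)‖`, `T ∈ A(p)`. -/
noncomputable def C (n : ℕ) (p : ℂ[X]) (f : ℂ → ℂ) : ℝ := sSup (normSet n p f)

/-- `P_{n,r}`: polynomials of degree `n` all of whose roots satisfy `|z| ≤ r`. -/
def P (n : ℕ) (r : ℝ) : Set ℂ[X] := {p | p.degree = n ∧ ∀ z : ℂ, p.eval z = 0 → ‖z‖ ≤ r}

/-- `p` is a worst polynomial for `f`. -/
def IsWorst (n : ℕ) (r : ℝ) (f : ℂ → ℂ) (p : ℂ[X]) : Prop :=
  p ∈ P n r ∧ ∀ q ∈ P n r, C n q f ≤ C n p f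

/-- For every `f` holomorphic on the unit disc: the functional calculus converges absolutely on every
`A(p)`, the maximum defining `C(p, f)` exists, and there is a point `a` on the circle `|a| = r` such
that `(z - a)^n` is a worst polynomial for `f`. -/
theorem result (n : ℕ) (hn : 1 ≤ n) (r : ℝ) (hr0 : 0 < r) (hr1 : r < 1) (f : ℂ → ℂ)
    (hf : DifferentiableOn ℂ f (ball 0 1)) :
    (∀ p ∈ P n r, (∀ T ∈ A n p, Summable fun k : ℕ => ‖taylorCoeff f k • T ^ k‖) ∧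
      IsGreatest (normSet n p f) (C n p f)) ∧
    ∃ a : ℂ, ‖a‖ = r ∧ IsWorst n r f ((X - Polynomial.C a) ^ n) := by
  obtain ⟨m, rfl⟩ : ∃ m, n = m + 1 := ⟨n - 1, by omega⟩
  obtain ⟨s, hrs, _, K, hK⟩ := Pool.Agent.Helper654.Ptak.tay_bound hr0 hr1 hf
  have hroot : ∀ p ∈ P (m + 1) r, ∃ z : ℂ, p.eval z = 0 ∧ ‖z‖ ≤ 1 := by
    intro p hp
    have hd : p.degree ≠ 0 := by
      rw [hp.1]
      intro h
      have : (m + 1 : ℕ) = 0 := by exact_mod_cast h
      omega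
    obtain ⟨z, hz⟩ := IsAlgClosed.exists_root p hd
    exact ⟨z, hz, (hp.2 z hz).trans hr1.le⟩
  have hgr : ∀ p ∈ P (m + 1) r, IsGreatest (normSet (m + 1) p f) (C (m + 1) p f) := by
    intro p hp
    obtain ⟨z, hz, hz1⟩ := hroot p hp
    obtain ⟨T, hT, hmax⟩ := Pool.Agent.Helper654.Ptak.attained (m := m) hr0 hr1 hrs hK p hp.2
      (Pool.Agent.Helper654.Ptak.An_nonempty z hz1 hz)
    have hG : IsGreatest (normSet (m + 1) p f) ‖funCalc f T‖ := by
      refine ⟨⟨T, hT, rfl⟩, ?_⟩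
      rintro x ⟨T', hT', rfl⟩
      exact hmax T' hT'
    have : C (m + 1) p f = ‖funCalc f T‖ := hG.csSup_eq
    rw [this]
    exact hG
  have hsum : ∀ p ∈ P (m + 1) r, ∀ T ∈ A (m + 1) p, Summable fun k : ℕ => ‖taylorCoeff f k • T ^ k‖ := by
    intro p hp T hT
    have hb := Pool.Agent.Helper654.Ptak.bd_summable (n := m + 1) hr0 hrs hK
    have hle : ∀ k, ‖taylorCoeff f k • T ^ k‖ ≤
        ‖Pool.Agent.Helper654.Ptak.tay f k‖ * Pool.Agent.Helper654.Ptak.bd (m + 1) r k := by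
      intro k
      have h1 := Pool.Agent.Helper654.Ptak.cls_pow_bound hr0 hr1 T hT.1 p hp.2 hT.2 k
      have h2 : ‖taylorCoeff f k • T ^ k‖ ≤ ‖taylorCoeff f k‖ * ‖T ^ k‖ := norm_smul_le (taylorCoeff f k) (T ^ k)
      exact h2.trans (mul_le_mul_of_nonneg_left h1 (norm_nonneg _))
    exact Summable.of_nonneg_of_le (fun k => norm_nonneg _) hle hb
  refine ⟨fun p hp => ⟨hsum p hp, hgr p hp⟩, ?_⟩
  obtain ⟨a, ha, T₀, h1, h2, h3⟩ := Pool.Agent.Helper654.Ptak.series_main (m := m) hr0 hr1 hrs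
      (Pool.Agent.Helper654.Ptak.tay f) K hK
  have hmem : (X - Polynomial.C a) ^ (m + 1) ∈ P (m + 1) r := by
    refine ⟨?_, ?_⟩
    · rw [degree_pow, degree_X_sub_C]
      simp
    · intro z hz
      rw [eval_pow, eval_sub, eval_X, eval_C] at hz
      have : z - a = 0 := by
        by_contra hne
        exact pow_ne_zero _ hne hz
      have hza : z = a := by linear_combination this
      rw [hza, ha]
  refine ⟨a, ha, hmem, ?_⟩
  intro q hq
  obtain ⟨T, hT, hTe⟩ := (hgr q hq).1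
  rw [hTe]
  refine le_trans ?_ ((hgr _ hmem).2 ⟨T₀, ⟨h1, h2⟩, rfl⟩)
  exact h3 T hT.1 q hq.2 hT.2

end Pool.Agent.Results.MP_a1a577_an.WorstSingleRoot
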